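import Mathlib
import Pool.Agent.Q80.LagTest

/-!
# `1 / ((k+1)^(k+1) k!)` is a multiplier sequence
-/

open Polynomial MeasureTheory Set Filter Topology

namespace Pool.Agent.Results.MP_38d282_an.PowerTower

open Q80.RR

/-- `T[x^k] = x^k / ((k+1)^(k+1) k!)` -/
noncomputable def T (p : ℝ[X]) : ℝ[X] :=
  ∑ k ∈ Finset.range (p.natDegree + 1),
    C (1 / (((k : ℝ) + 1) ^ (k + 1) * (k.factorial : ℝ)) * p.coeff k) * X ^ k

/-- `s e^{1-s}` -/
noncomputable def u (s : ℝ) : ℝ := s * Real.exp (1 - s)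

lemma u_nonneg {s : ℝ} (hs : 0 ≤ s) : 0 ≤ u s := mul_nonneg hs (Real.exp_pos _).le

lemma u_one : u 1 = 1 := by simp [u]

lemma u_zero : u 0 = 0 := by simp [u]

lemma u_le_one (s : ℝ) : u s ≤ 1 := by
  unfold u
  have h1 := Real.add_one_le_exp (s - 1)
  have h2 : s ≤ Real.exp (s - 1) := by linarith
  calc s * Real.exp (1 - s) ≤ Real.exp (s - 1) * Real.exp (1 - s) :=
        mul_le_mul_of_nonneg_right h2 (Real.exp_pos _).le
    _ = 1 := by rw [← Real.exp_add]; simp

/-- `s (1 - u) ≤ (s-1)²` -/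
lemma one_sub_u {s : ℝ} (hs : 0 ≤ s) : s * (1 - u s) ≤ (s - 1) ^ 2 := by
  unfold u
  have h1 := Real.add_one_le_exp (1 - s)
  have h2 : s * (1 - s * Real.exp (1 - s)) ≤ s * (1 - s * (1 - s + 1)) := by
    apply mul_le_mul_of_nonneg_left _ hs
    have := mul_le_mul_of_nonneg_left h1 hs
    linarith
  have h3 : s * (1 - s * (1 - s + 1)) = s * (s - 1) ^ 2 := by ring
  rcases le_or_gt s 1 with h | h
  · rw [h3] at h2
    calc _ ≤ s * (s - 1) ^ 2 := h2
      _ ≤ 1 * (s - 1) ^ 2 := mul_le_mul_of_nonneg_right h (sq_nonneg _)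
      _ = _ := one_mul _
  · -- s > 1 : use `s (1-u) = s (1 - exp(log s + 1 - s)) ≤ s (s - 1 - log s) ≤ (s-1)²`
    have h4 : Real.exp (Real.log s + (1 - s)) = s * Real.exp (1 - s) := by
      rw [Real.exp_add, Real.exp_log (by linarith)]
    have h5 := Real.add_one_le_exp (Real.log s + (1 - s))
    rw [h4] at h5
    have h6 := Real.one_sub_inv_le_log_of_pos (by linarith : 0 < s)
    have h7 : 1 - s * Real.exp (1 - s) ≤ s - 1 - (1 - s⁻¹) := by linarith
    have h8 := mul_le_mul_of_nonneg_left h7 hs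
    have h9 : s * (s - 1 - (1 - s⁻¹)) = (s - 1) ^ 2 := by
      have h10 : s * s⁻¹ = 1 := mul_inv_cancel₀ (by linarith)
      linear_combination h10
    linarith

lemma u_hasDerivAt {s : ℝ} (hs : s ≠ 0) : HasDerivAt u (u s * (1 - s) / s) s := by
  unfold u
  have h1 : HasDerivAt (fun s : ℝ => 1 - s) (-1) s := by
    simpa using (hasDerivAt_id s).const_sub 1
  have := (hasDerivAt_id s).mul h1.exp
  refine this.congr_deriv ?_
  simp only [id]
  field_simp
  ring

lemma u_cont : Continuous u := by unfold u; fun_prop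

/-- the kernel -/
noncomputable def H (k : ℕ) (s : ℝ) : ℝ := (1 / (s - 1) ^ 2) * (1 - u s ^ (k + 1))

/-- the primitive -/
noncomputable def G (k : ℕ) (s : ℝ) : ℝ := s * (1 - u s ^ (k + 1)) / (s - 1)

lemma one_sub_pow_le (k : ℕ) {r : ℝ} (h0 : 0 ≤ r) (h1 : r ≤ 1) :
    0 ≤ 1 - r ^ (k + 1) ∧ 1 - r ^ (k + 1) ≤ (k + 1) * (1 - r) := by
  constructor
  · have := pow_le_one₀ h0 h1 (n := k + 1)
    linarith
  · have := one_add_mul_le_pow (a := r - 1) (by linarith) (k + 1)
    have h2 : 1 + (r - 1) = r := by ring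
    rw [h2] at this
    push_cast at this
    nlinarith

lemma H_nonneg (k : ℕ) {s : ℝ} (hs : 0 ≤ s) : 0 ≤ H k s :=
  mul_nonneg (by positivity) (one_sub_pow_le k (u_nonneg hs) (u_le_one s)).1

lemma H_le (k : ℕ) {s : ℝ} (hs : 0 ≤ s) : s * H k s ≤ k + 1 := by
  unfold H
  by_cases h1 : s = 1
  · rw [h1]; simp; positivity
  have h2 : 0 < (s - 1) ^ 2 := by
    have : s - 1 ≠ 0 := sub_ne_zero.2 h1
    positivity
  have h3 := (one_sub_pow_le k (u_nonneg hs) (u_le_one s)).2
  have h4 := one_sub_u hs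
  calc s * (1 / (s - 1) ^ 2 * (1 - u s ^ (k + 1))) = s * (1 - u s ^ (k + 1)) / (s - 1) ^ 2 := by
        field_simp
    _ ≤ (k + 1) * (s - 1) ^ 2 / (s - 1) ^ 2 := by
        apply div_le_div_of_nonneg_right _ h2.le
        calc s * (1 - u s ^ (k + 1)) ≤ s * ((k + 1) * (1 - u s)) :=
              mul_le_mul_of_nonneg_left h3 hs
          _ = (k + 1) * (s * (1 - u s)) := by ring
          _ ≤ _ := mul_le_mul_of_nonneg_left h4 (by positivity)
    _ = _ := by field_simp

lemma H_le' (k : ℕ) {s : ℝ} (hs : 0 ≤ s) : H k s * (s - 1) ^ 2 ≤ 1 := by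
  unfold H
  by_cases h1 : s = 1
  · rw [h1]; simp
  have h2 : (s - 1) ^ 2 ≠ 0 := by
    have : s - 1 ≠ 0 := sub_ne_zero.2 h1
    positivity
  have : 1 / (s - 1) ^ 2 * (1 - u s ^ (k + 1)) * (s - 1) ^ 2 = 1 - u s ^ (k + 1) := by
    field_simp
  rw [this]
  have := pow_nonneg (u_nonneg hs) (k + 1)
  linarith

lemma H_meas (k : ℕ) : Measurable (H k) := by
  unfold H
  have := u_cont.measurable
  fun_prop

lemma H_bound_left (k : ℕ) {s : ℝ} (hs : 0 ≤ s) (h1 : s ≤ 1) : H k s ≤ 4 + 2 * (k + 1) := by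
  rcases le_or_gt s (1 / 2) with h | h
  · have h2 := H_le' k hs
    have h3 := H_nonneg k hs
    have h4 : (1 : ℝ) / 4 ≤ (s - 1) ^ 2 := by nlinarith
    have h5 : H k s * (1 / 4) ≤ H k s * (s - 1) ^ 2 := mul_le_mul_of_nonneg_left h4 h3
    have : (0 : ℝ) ≤ k := Nat.cast_nonneg k
    linarith
  · have h2 := H_le k hs
    have h3 := H_nonneg k hs
    have h5 : (1 / 2) * H k s ≤ s * H k s := mul_le_mul_of_nonneg_right h.le h3
    linarith

lemma H_bound_right (k : ℕ) {s : ℝ} (hs : 1 < s) : H k s ≤ (4 + 2 * (k + 1)) * s ^ (-2 : ℝ) := by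
  have h0 : 0 < s := by linarith
  have e : s ^ (-2 : ℝ) = 1 / s ^ 2 := by
    rw [Real.rpow_neg h0.le]
    norm_cast
    rw [one_div]
  rw [e, mul_one_div, le_div_iff₀ (by positivity)]
  have h3 := H_nonneg k h0.le
  rcases le_or_gt s 2 with h | h
  · have h2 := H_le k h0.le
    calc H k s * s ^ 2 = (s * H k s) * s := by ring
      _ ≤ (k + 1) * 2 := mul_le_mul h2 h h0.le (by positivity)
      _ ≤ _ := by linarith
  · have h2 := H_le' k h0.le
    have h4 : s ^ 2 ≤ 4 * (s - 1) ^ 2 := by nlinarith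
    calc H k s * s ^ 2 ≤ H k s * (4 * (s - 1) ^ 2) := mul_le_mul_of_nonneg_left h4 h3
      _ = 4 * (H k s * (s - 1) ^ 2) := by ring
      _ ≤ 4 * 1 := by linarith
      _ ≤ _ := by
        have : (0 : ℝ) ≤ k := Nat.cast_nonneg k
        linarith

lemma H_int_left (k : ℕ) : IntegrableOn (H k) (Ioc 0 1) := by
  apply Measure.integrableOn_of_bounded (M := 4 + 2 * ((k : ℝ) + 1))
  · simp
  · exact (H_meas k).aestronglyMeasurable
  · filter_upwards [ae_restrict_mem measurableSet_Ioc] with s hs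
    rw [Real.norm_of_nonneg (H_nonneg k hs.1.le)]
    exact H_bound_left k hs.1.le hs.2

lemma H_int_right (k : ℕ) : IntegrableOn (H k) (Ioi 1) := by
  have h1 : IntegrableOn (fun s : ℝ => (4 + 2 * ((k : ℝ) + 1)) * s ^ (-2 : ℝ)) (Ioi 1) :=
    (integrableOn_Ioi_rpow_of_lt (by norm_num) one_pos).const_mul _
  refine Integrable.mono' h1 (H_meas k).aestronglyMeasurable ?_
  filter_upwards [ae_restrict_mem measurableSet_Ioi] with s hs
  have hs' : (1 : ℝ) < s := hs
  rw [Real.norm_of_nonneg (H_nonneg k (by linarith))]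
  exact H_bound_right k hs'

lemma Ioi_union : (Ioi (0 : ℝ)) = Ioc 0 1 ∪ Ioi 1 := (Ioc_union_Ioi_eq_Ioi zero_le_one).symm

lemma H_int (k : ℕ) : IntegrableOn (H k) (Ioi 0) := by
  rw [Ioi_union]
  exact (H_int_left k).union (H_int_right k)

/-- the gamma part -/
lemma gam (k : ℕ) : IntegrableOn (fun s => u s ^ (k + 1)) (Ioi 0) ∧
    ((k : ℝ) + 1) * ∫ s in Ioi (0 : ℝ), u s ^ (k + 1) =
      Real.exp (k + 1) * ((k + 1).factorial : ℝ) / ((k : ℝ) + 1) ^ (k + 1) := by
  have hk : (0 : ℝ) < (k : ℝ) + 1 := by positivity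
  have e1 : ∀ s ∈ Ioi (0 : ℝ), u s ^ (k + 1) = Real.exp (k + 1) *
      (s ^ (((k + 1 : ℕ) : ℝ) + 1 - 1) * Real.exp (-(((k : ℝ) + 1) * s))) := by
    intro s hs
    have : s ^ (((k + 1 : ℕ) : ℝ) + 1 - 1) = s ^ (k + 1) := by
      rw [add_sub_cancel_right, Real.rpow_natCast]
    rw [this]
    unfold u
    rw [mul_pow, ← Real.exp_nat_mul]
    have : Real.exp (((k + 1 : ℕ) : ℝ) * (1 - s)) = Real.exp (k + 1) * Real.exp (-(((k : ℝ) + 1) * s)) := by
      rw [← Real.exp_add]; congr 1; push_cast; ring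
    rw [this]; ring
  constructor
  · have h1 := integrableOn_rpow_mul_exp_neg_mul_rpow (p := 1) (s := ((k + 1 : ℕ) : ℝ))
      (b := (k : ℝ) + 1) (by have : (0 : ℝ) ≤ ((k + 1 : ℕ) : ℝ) := Nat.cast_nonneg _
                             linarith) one_pos hk
    have h2 := h1.const_mul (Real.exp (k + 1))
    refine IntegrableOn.congr_fun h2 ?_ measurableSet_Ioi
    intro s hs
    have := e1 s hs
    simp only [add_sub_cancel_right, Real.rpow_one, neg_mul] at this ⊢
    exact this.symm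
  · rw [setIntegral_congr_fun measurableSet_Ioi e1, integral_const_mul,
      Real.integral_rpow_mul_exp_neg_mul_Ioi (by positivity) hk, Real.Gamma_nat_eq_factorial]
    have e2 : (1 / ((k : ℝ) + 1)) ^ (((k + 1 : ℕ) : ℝ) + 1) = 1 / (((k : ℝ) + 1) ^ (k + 1) * (k + 1)) := by
      have : (((k + 1 : ℕ) : ℝ) + 1) = ((k + 2 : ℕ) : ℝ) := by push_cast; ring
      rw [this, Real.rpow_natCast, one_div_pow, pow_succ]
    rw [e2]
    field_simp

lemma G_hasDerivAt (k : ℕ) {s : ℝ} (h0 : 0 < s) (h1 : s ≠ 1) :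
    HasDerivAt (G k) (((k : ℝ) + 1) * u s ^ (k + 1) - H k s) s := by
  unfold G H
  have hs1 : s - 1 ≠ 0 := sub_ne_zero.2 h1
  have e1 := ((u_hasDerivAt h0.ne').pow (k + 1)).const_sub 1
  have e2 := ((hasDerivAt_id s).mul e1).div ((hasDerivAt_id s).sub_const 1) hs1
  refine e2.congr_deriv ?_
  simp only [id, Nat.add_sub_cancel, Pi.mul_apply, Pi.pow_apply]
  rw [pow_succ]
  push_cast
  field_simp
  ring

lemma G_one (k : ℕ) : G k 1 = 0 := by simp [G]

lemma G_zero (k : ℕ) : G k 0 = 0 := by simp [G]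

lemma G_abs (k : ℕ) {s : ℝ} (hs : 0 ≤ s) : |G k s| ≤ (k + 1) * |s - 1| := by
  unfold G
  by_cases h1 : s = 1
  · rw [h1]; simp
  have hs1 : s - 1 ≠ 0 := sub_ne_zero.2 h1
  have hpos : 0 < |s - 1| := abs_pos.2 hs1
  rw [abs_div, div_le_iff₀ hpos]
  have h3 := one_sub_pow_le k (u_nonneg hs) (u_le_one s)
  have h4 := one_sub_u hs
  rw [abs_of_nonneg (mul_nonneg hs h3.1)]
  calc s * (1 - u s ^ (k + 1)) ≤ s * ((k + 1) * (1 - u s)) :=
        mul_le_mul_of_nonneg_left h3.2 hs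
    _ = (k + 1) * (s * (1 - u s)) := by ring
    _ ≤ (k + 1) * (s - 1) ^ 2 := mul_le_mul_of_nonneg_left h4 (by positivity)
    _ = _ := by rw [mul_assoc, ← sq, sq_abs]

lemma G_contAt (k : ℕ) {s : ℝ} (h : s ≠ 1) : ContinuousAt (G k) s := by
  unfold G
  have := u_cont
  apply ContinuousAt.div
  · fun_prop
  · fun_prop
  · exact sub_ne_zero.2 h

lemma G_contAt_one (k : ℕ) : ContinuousAt (G k) 1 := by
  unfold ContinuousAt
  rw [G_one]
  have h1 : Tendsto (fun s : ℝ => ((k : ℝ) + 1) * |s - 1|) (𝓝 1) (𝓝 0) := by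
    have : Continuous (fun s : ℝ => ((k : ℝ) + 1) * |s - 1|) := by fun_prop
    have h2 := this.tendsto 1
    simpa using h2
  refine squeeze_zero_norm' ?_ h1
  filter_upwards [Ioi_mem_nhds (zero_lt_one : (0 : ℝ) < 1)] with s hs
  rw [Real.norm_eq_abs]
  exact G_abs k (le_of_lt hs)

lemma G_cont (k : ℕ) (s : ℝ) : ContinuousAt (G k) s := by
  by_cases h : s = 1
  · rw [h]; exact G_contAt_one k
  · exact G_contAt k h

lemma G_tendsto (k : ℕ) : Tendsto (G k) atTop (𝓝 1) := by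
  have h1 : Tendsto u atTop (𝓝 0) := by
    have h2 := (Real.tendsto_pow_mul_exp_neg_atTop_nhds_zero 1).const_mul (Real.exp 1)
    rw [mul_zero] at h2
    refine h2.congr fun s => ?_
    unfold u
    rw [pow_one, sub_eq_add_neg, Real.exp_add]; ring
  have h2 : Tendsto (fun s => 1 - u s ^ (k + 1)) atTop (𝓝 (1 - 0 ^ (k + 1))) :=
    (h1.pow (k + 1)).const_sub 1
  rw [zero_pow (by omega), sub_zero] at h2
  have h3 : Tendsto (fun s : ℝ => s / (s - 1)) atTop (𝓝 1) := by
    have h4 : Tendsto (fun s : ℝ => 1 + 1 / (s - 1)) atTop (𝓝 (1 + 0)) := by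
      apply Tendsto.const_add
      have : Tendsto (fun s : ℝ => s - 1) atTop atTop := tendsto_atTop_add_const_right _ _ tendsto_id
      simp only [one_div]
      exact this.inv_tendsto_atTop
    rw [add_zero] at h4
    refine h4.congr' ?_
    filter_upwards [eventually_gt_atTop 1] with s hs
    have : s - 1 ≠ 0 := (sub_pos.2 hs).ne'
    field_simp
    ring
  have h5 := h3.mul h2
  rw [one_mul] at h5
  refine h5.congr fun s => ?_
  unfold G; ring

lemma int_formula (k : ℕ) : 1 + ∫ s in Ioi (0 : ℝ), H k s =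
    Real.exp (k + 1) * ((k + 1).factorial : ℝ) / ((k : ℝ) + 1) ^ (k + 1) := by
  obtain ⟨hi, hv⟩ := gam k
  have hi' := hi.const_mul ((k : ℝ) + 1)
  have hint : IntegrableOn (fun s => ((k : ℝ) + 1) * u s ^ (k + 1) - H k s) (Ioi 0) :=
    hi'.sub (H_int k)
  have hleft : ∫ s in (0 : ℝ)..1, (((k : ℝ) + 1) * u s ^ (k + 1) - H k s) = G k 1 - G k 0 := by
    apply intervalIntegral.integral_eq_sub_of_hasDerivAt_of_le zero_le_one
    · intro s _; exact (G_cont k s).continuousWithinAt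
    · intro s hs; exact G_hasDerivAt k hs.1 hs.2.ne
    · rw [intervalIntegrable_iff_integrableOn_Ioc_of_le zero_le_one]
      exact hint.mono_set Ioc_subset_Ioi_self
  have hright : ∫ s in Ioi (1 : ℝ), (((k : ℝ) + 1) * u s ^ (k + 1) - H k s) = 1 - G k 1 := by
    apply integral_Ioi_of_hasDerivAt_of_tendsto (G_cont k 1).continuousWithinAt
    · intro s hs
      have hs' : (1 : ℝ) < s := hs
      exact G_hasDerivAt k (by linarith) hs'.ne'
    · exact hint.mono_set (Ioi_subset_Ioi zero_le_one)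
    · exact G_tendsto k
  have hsum : ∫ s in Ioi (0 : ℝ), (((k : ℝ) + 1) * u s ^ (k + 1) - H k s) = 1 := by
    rw [Ioi_union, setIntegral_union (Ioc_disjoint_Ioi le_rfl) measurableSet_Ioi
      (hint.mono_set Ioc_subset_Ioi_self) (hint.mono_set (Ioi_subset_Ioi zero_le_one)),
      ← intervalIntegral.integral_of_le zero_le_one, hleft, hright, G_one, G_zero]
    ring
  rw [integral_sub hi' (H_int k), integral_const_mul, hv] at hsum
  linarith

lemma good_s : Good (fun k : ℕ => Real.exp (k + 1) * ((k + 1).factorial : ℝ) /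
    ((k : ℝ) + 1) ^ (k + 1)) := by
  have h1 := good_integral (μ := volume.restrict (Ioi (0 : ℝ))) (f := fun s k => H k s)
    (fun k => H_int k) (by
      filter_upwards [ae_restrict_mem measurableSet_Ioi] with s hs
      have hs' : (0 : ℝ) < s := hs
      exact good_const_mul (good_sub_pow ⟨u_nonneg hs'.le, u_le_one s⟩) (by positivity))
  have h2 := good_add (good_const zero_le_one) h1
  simp only [int_formula] at h2
  exact h2

lemma ms_inv_factorial_succ : MS (fun k => 1 / ((k + 1).factorial : ℝ)) := by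
  intro p hp
  have h1 := ms_inv_factorial _ (onlyReal_mul (onlyReal_X_pow 1) hp)
  apply onlyReal_of_X_pow_mul (m := 1)
  have : X ^ 1 * hm (fun k => 1 / ((k + 1).factorial : ℝ)) p =
      hm (fun k => 1 / (k.factorial : ℝ)) (X ^ 1 * p) := by
    ext k
    rw [coeff_hm, pow_one]
    rcases k with _ | k
    · simp
    · rw [coeff_X_mul, coeff_X_mul, coeff_hm]
  rw [this]
  exact h1

lemma ms_main : MS (fun k => 1 / (((k : ℝ) + 1) ^ (k + 1) * (k.factorial : ℝ))) := by
  have h1 := ms_of_good good_s (fun k => by positivity)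
  have h2 := ms_const_mul (ms_mul (ms_mul h1 (ms_pow (Real.exp (-1)))) ms_inv_factorial_succ)
    (Real.exp (-1))
  have e : (fun k : ℕ => 1 / (((k : ℝ) + 1) ^ (k + 1) * (k.factorial : ℝ))) = fun k : ℕ =>
      Real.exp (-1) * (Real.exp (k + 1) * ((k + 1).factorial : ℝ) /
        ((k : ℝ) + 1) ^ (k + 1) / (k.factorial : ℝ) * Real.exp (-1) ^ k *
        (1 / ((k + 1).factorial : ℝ))) := by
    funext k
    have h3 : Real.exp (-1) * Real.exp (k + 1) * Real.exp (-1) ^ k = 1 := by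
      rw [← Real.exp_nat_mul, ← Real.exp_add, ← Real.exp_add]
      rw [show -1 + ((k : ℝ) + 1) + (k : ℝ) * -1 = 0 by ring, Real.exp_zero]
    have h4 : ((k + 1).factorial : ℝ) ≠ 0 := by positivity
    have h5 : (k.factorial : ℝ) ≠ 0 := by positivity
    calc 1 / (((k : ℝ) + 1) ^ (k + 1) * (k.factorial : ℝ)) =
          (Real.exp (-1) * Real.exp (k + 1) * Real.exp (-1) ^ k) *
          (1 / (((k : ℝ) + 1) ^ (k + 1) * (k.factorial : ℝ))) := by rw [h3, one_mul]
      _ = _ := by field_simp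
  rw [e]
  exact h2

lemma T_eq (p : ℝ[X]) : T p = hm (fun k => 1 / (((k : ℝ) + 1) ^ (k + 1) * (k.factorial : ℝ))) p := by
  unfold T hm
  apply Finset.sum_congr rfl
  intro k _
  rw [C_mul_X_pow_eq_monomial]

/-- `1/((k+1)^(k+1) k!)` is a multiplier sequence: `T` maps a nonzero real polynomial with only real
zeros to a nonzero real polynomial with only real zeros. -/
theorem result : ∀ p : ℝ[X], p ≠ 0 → (∀ z : ℂ, aeval z p = 0 → z.im = 0) →
    T p ≠ 0 ∧ ∀ z : ℂ, aeval z (T p) = 0 → z.im = 0 := by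
  intro p hp0 hp
  have hne : T p ≠ 0 := by
    intro h
    have h2 : (T p).coeff p.natDegree = 0 := by rw [h, coeff_zero]
    rw [T_eq, coeff_hm] at h2
    rcases mul_eq_zero.1 h2 with h3 | h3
    · have : 0 < 1 / (((p.natDegree : ℝ) + 1) ^ (p.natDegree + 1) * (p.natDegree.factorial : ℝ)) := by
        positivity
      linarith
    · exact hp0 (leadingCoeff_eq_zero.1 h3)
  refine ⟨hne, ?_⟩
  have h3 := ms_main p (Or.inr hp)
  rw [← T_eq] at h3
  exact h3.resolve_left hne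

end Pool.Agent.Results.MP_38d282_an.PowerTower
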